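import Pool.Agent.Y996.TL.Stm
import Pool.Agent.H981R2.TP.D2

/-! Project TL: the closed formula in terms of rising factorials. -/

set_option autoImplicit false

namespace Pool.Agent.Y996.TL

open Pool.Agent.H988R2.Perc hiding X
open Pool.Agent.H981R2.TP
open Finset Filter Topology

/-- rising factorial `s (s+1) ⋯ (s+k-1)` -/
noncomputable def ris (s : ℝ) (k : ℕ) : ℝ := ∏ i ∈ range k, (s + i)

theorem ris_pos {s : ℝ} (hs : 0 < s) (k : ℕ) : 0 < ris s k := prod_pos fun i _ => by positivity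

theorem ris_succ (s : ℝ) (k : ℕ) : ris s (k + 1) = ris s k * (s + k) := prod_range_succ _ _

theorem odd_ratio (n : ℕ) : chi (2 * n + 2) / chi (2 * n + 1) =
    27 / 16 * (81 / 16 : ℝ) ^ n * ris (1 / 3) (2 * n + 2) / ris (1 / 2) (2 * n + 2) := by
  rw [show 2 * n + 2 = (2 * n + 1) + 1 from rfl, t25_succ,
    mul_div_cancel_left₀ _ (chi_pos (2 * n + 1)).ne', D2_odd, ris_succ (1 / 3) (2 * n + 1),
    ris_succ (1 / 2) (2 * n + 1), prod_div_distrib]
  have h1 := (ris_pos (s := 1 / 2) (by norm_num) (2 * n + 1)).ne'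
  change 9 / 4 * ((3 * (n : ℝ) + 2) / (4 * n + 3)) * (81 / 16 : ℝ) ^ n *
    (ris (1 / 3) (2 * n + 1) / ris (1 / 2) (2 * n + 1)) = _
  push_cast
  have h2 : (4 : ℝ) * n + 3 ≠ 0 := by positivity
  have h3 : (1 / 2 : ℝ) + (2 * n + 1) ≠ 0 := by positivity
  field_simp
  ring

theorem even_ratio (n : ℕ) : chi (2 * n + 1) / chi (2 * n) =
    3 / 4 * (81 / 16 : ℝ) ^ n * ris (2 / 3) (2 * n + 1) / ris (1 / 2) (2 * n + 1) := by
  rw [t25_succ, mul_div_cancel_left₀ _ (chi_pos (2 * n)).ne', D2_even, ris_succ (2 / 3) (2 * n),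
    ris_succ (1 / 2) (2 * n), prod_div_distrib]
  have h1 := (ris_pos (s := 1 / 2) (by norm_num) (2 * n)).ne'
  change (3 * (n : ℝ) + 1) / (4 * n + 1) * (81 / 16 : ℝ) ^ n *
    (ris (2 / 3) (2 * n) / ris (1 / 2) (2 * n)) = _
  push_cast
  have h2 : (4 : ℝ) * n + 1 ≠ 0 := by positivity
  have h3 : (1 / 2 : ℝ) + 2 * n ≠ 0 := by positivity
  field_simp
  ring

theorem form3_eq (a b : ℕ) (ha : Odd a) (hb : Odd b) : form3 a b =
    4 / 3 * (ris (1 / 3) (a + 1) * ris (1 / 3) (b + 1) * ris (1 / 2) (a + b + 3)) /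
      (ris (1 / 2) (a + 1) * ris (1 / 2) (b + 1) * ris (2 / 3) (a + b + 3)) := by
  obtain ⟨m, rfl⟩ := ha
  obtain ⟨k, rfl⟩ := hb
  have h1 := odd_ratio m
  have h2 := odd_ratio k
  have h3 := even_ratio (m + k + 2)
  have e : form3 (2 * m + 1) (2 * k + 1) =
      9 * (chi (2 * m + 2) / chi (2 * m + 1)) * (chi (2 * k + 2) / chi (2 * k + 1)) /
        (chi (2 * (m + k + 2) + 1) / chi (2 * (m + k + 2))) := by
    unfold form3
    rw [show 2 * m + 1 + (2 * k + 1) + 2 = 2 * (m + k + 2) by ring,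
      show 2 * m + 1 + (2 * k + 1) + 3 = 2 * (m + k + 2) + 1 by ring,
      show 2 * m + 1 + 1 = 2 * m + 2 by ring, show 2 * k + 1 + 1 = 2 * k + 2 by ring]
    have := (chi_pos (2 * m + 1)).ne'
    have := (chi_pos (2 * k + 1)).ne'
    have := (chi_pos (2 * (m + k + 2))).ne'
    have := (chi_pos (2 * (m + k + 2) + 1)).ne'
    field_simp
  rw [e, h1, h2, h3, show 2 * m + 1 + (2 * k + 1) + 3 = 2 * (m + k + 2) + 1 by ring,
    show 2 * m + 1 + 1 = 2 * m + 2 by ring, show 2 * k + 1 + 1 = 2 * k + 2 by ring]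
  have := (ris_pos (s := 1 / 2) (by norm_num) (2 * m + 2)).ne'
  have := (ris_pos (s := 1 / 2) (by norm_num) (2 * k + 2)).ne'
  have := (ris_pos (s := 1 / 2) (by norm_num) (2 * (m + k + 2) + 1)).ne'
  have := (ris_pos (s := 2 / 3) (by norm_num) (2 * (m + k + 2) + 1)).ne'
  rw [pow_add, pow_add]
  field_simp
  ring

end Pool.Agent.Y996.TL
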