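/-
Project TL: the assembled theorems. All the modules of the project are used here.
-/
import Pool.Agent.Y786.TLZ.Z0
import Pool.Agent.Y405.TL.A1
import Pool.Agent.Y405.TL.A2
import Pool.Agent.Y571.TL.A357
import Pool.Agent.Y815.TL.A4
import Pool.Agent.Y523.TL.A6
import Pool.Agent.Y448.TL.A8
import Pool.Agent.Y448.TL.A10
import Pool.Agent.Y405.TL.R1
import Pool.Agent.Y405.TL.R2
import Pool.Agent.Y405.TL.R3
import Pool.Agent.Y571.TL.GFH
import Pool.Agent.Y362.TL.B11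
import Pool.Agent.Y362.TL.U
import Pool.Agent.Y328.TL.B33
import Pool.Agent.Y786.TLZ.C45
import Pool.Agent.Y328.TL.C67
import Pool.Agent.Y954.TL.C8
import Pool.Agent.Y960.TL.C910
import Pool.Agent.Y960.TL.C1113
import Pool.Agent.Y960.TL.C14
import Pool.Agent.Y710.TL.C15
import Pool.Agent.Y328.TL.D
import Pool.Agent.Y996.TL.Form

set_option autoImplicit false

namespace Pool.Agent.Y996.TL

open Pool.Agent.H988R2.Perc hiding X
open Filter Topology

theorem allG : S_G :=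
  Pool.Agent.Y571.TL.g Pool.Agent.Y405.TL.a1 Pool.Agent.Y405.TL.a2 Pool.Agent.Y571.TL.a3
    Pool.Agent.Y815.TL.a4 Pool.Agent.Y571.TL.a5 (Pool.Agent.Y523.TL.a6 Pool.Agent.Y786.TLZ.z0)
    Pool.Agent.Y571.TL.a7 Pool.Agent.Y405.TL.r1 Pool.Agent.Y405.TL.r2 Pool.Agent.Y405.TL.r3

theorem allH : S_H :=
  Pool.Agent.Y571.TL.h (Pool.Agent.Y571.TL.f allG Pool.Agent.Y362.TL.b11 Pool.Agent.Y328.TL.b33
    Pool.Agent.Y362.TL.u Pool.Agent.Y448.TL.a8 Pool.Agent.Y448.TL.a9 Pool.Agent.Y448.TL.a10)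

theorem all14 : S_C14 :=
  Pool.Agent.Y960.TL.c14 Pool.Agent.Y786.TLZ.c4 Pool.Agent.Y786.TLZ.c5 Pool.Agent.Y328.TL.c6
    Pool.Agent.Y328.TL.c7 Pool.Agent.Y328.TL.c7m
    (Pool.Agent.Y960.TL.c10 Pool.Agent.Y954.TL.c8 Pool.Agent.Y960.TL.c9)
    Pool.Agent.Y960.TL.c11 (Pool.Agent.Y960.TL.c13 Pool.Agent.Y960.TL.c11)

/-- the exact value of the probability of the three legs -/
theorem exact3 : S_Exact := exact_of allH all14 Pool.Agent.Y710.TL.c15 Pool.Agent.Y571.TL.mass_ne1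

/-- the exact value in terms of rising factorials -/
theorem exact_ris (a b : ℕ) (ha : Odd a) (hb : Odd b) : perc.real (Legs a b) =
    4 / 3 * (ris (1 / 3) (a + 1) * ris (1 / 3) (b + 1) * ris (1 / 2) (a + b + 3)) /
      (ris (1 / 2) (a + 1) * ris (1 / 2) (b + 1) * ris (2 / 3) (a + b + 3)) := by
  rw [exact3 a b ha hb, form3_eq a b ha hb]

/-- the sharp asymptotics -/
theorem limit3 (a b : ℕ → ℕ) (ha : ∀ n, Odd (a n)) (hb : ∀ n, Odd (b n))
    (ta : Tendsto a atTop atTop) (tb : Tendsto b atTop atTop) :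
    Tendsto (fun n => perc.real (Legs (a n) (b n)) *
      ((a n : ℝ) * b n * (a n + b n)) ^ ((1:ℝ)/6)) atTop
    (𝓝 (2 * Real.sqrt Real.pi * Real.Gamma (5/3) / Real.Gamma (1/3) ^ 2)) := by
  refine (Pool.Agent.Y328.TL.d a b ha hb ta tb).congr fun n => ?_
  rw [exact3 (a n) (b n) (ha n) (hb n)]

end Pool.Agent.Y996.TL
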