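import Pool.Agent.H981R2.TP.Stubs
import Pool.Agent.H980R3.Slit.Stubs
import Pool.Agent.H492C.Defs

/-!
Project TL (three legs at the tip of a slit of width 3): definitions and statements.

`L = a + b + 3`, `a`, `b` odd.  Coordinates: column `u - v`, time `u + v - 1`.  The strip is
`0 ≤ u - v ≤ L`; at times `≥ 0` the edges between the columns `a, a+1, a+2, a+3` are removed.
Left bank of the slit: column `a`, times `≥ 0`.  Tip: the vertex of the column `a+2` at time `0`.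
Event: the tip is joined to the right wall, the left bank is not.
-/

namespace Pool.Agent.Y996.TL

open Pool.Agent.H988R2.Perc hiding X
open Pool.Agent.H492C
open Pool.Agent.H980R3.Slit (GP E0 E1 E2 oFutR tR psi1)
open Finset Polynomial Filter Topology MeasureTheory Relation

/-! ## Part A: the glued vectors -/

/-- the functional `{a ~ r or a+2 ~ r} - {a ~ r}` (`a` odd) -/
noncomputable def pr3 (a r : ℕ) (f g : St →₀ ℂ) : ℂ :=
  pairG a r (Finsupp.mapDomain (St.act a) f) g - pairG a r f g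

/-- the glued quantity: lower strip of width `L = a+3+b` with parameters `A, 1, 1, 1, B`, upper
strips of (odd) widths `a`, `b` with inverted parameters -/
noncomputable def GR3 (A B : List ℂ) : ℂ :=
  pr3 A.length (A.length + 3 + B.length) (Psi (A ++ 1 :: 1 :: 1 :: (B ++ [0])))
    (comb2 ((A.length + 3) / 2) (up1 A) (up1 B))

/-- the closed formula -/
noncomputable def RH3 (A B : List ℂ) : ℂ :=
  9 * q^(A.length + B.length + 2) * A.prod^(2 - (A.length : ℤ)) * B.prod^(2 - (B.length : ℤ)) *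
    Z (A ++ [1]) * Z (B ++ [1]) * Z (A ++ 1 :: 1 :: B)

/-- the properties used by the uniqueness lemma -/
structure Good (D : List ℂ → List ℂ → ℂ) : Prop where
  swA : ∀ (u v B : List ℂ) (x y : ℂ), Odd (u.length + v.length) → Odd B.length → x ≠ 0 →
      y ≠ 0 → (∀ z ∈ u ++ v ++ B, z ≠ 0) → D (u ++ y :: x :: v) B = D (u ++ x :: y :: v) B
  swB : ∀ (A u v : List ℂ) (x y : ℂ), Odd A.length → Odd (u.length + v.length) → x ≠ 0 →
      y ≠ 0 → (∀ z ∈ A ++ u ++ v, z ≠ 0) → D A (u ++ y :: x :: v) = D A (u ++ x :: y :: v)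
  invA : ∀ (A B : List ℂ) (x : ℂ), Even A.length → Odd B.length → x ≠ 0 → (∀ z ∈ A ++ B, z ≠ 0) →
      D (x :: A) B = x^(B.length + 3) * D (x⁻¹ :: A) B
  invB : ∀ (A B : List ℂ) (x : ℂ), Odd A.length → Even B.length → x ≠ 0 → (∀ z ∈ A ++ B, z ≠ 0) →
      D A (B ++ [x]) = x^(A.length + 3) * D A (B ++ [x⁻¹])
  pairA : ∀ (A B : List ℂ) (x : ℂ), Odd A.length → Odd B.length → x ≠ 0 → (∀ z ∈ A ++ B, z ≠ 0) →
      D (x :: (q^2 * x) :: A) B =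
        fac x (A ++ 1 :: 1 :: 1 :: (B ++ [0])) * fac (q^2 * x)⁻¹ (A.map (fun x => x⁻¹) ++ [0]) * D A B
  pairB : ∀ (A B : List ℂ) (x : ℂ), Odd A.length → Odd B.length → x ≠ 0 → (∀ z ∈ A ++ B, z ≠ 0) →
      D A (x :: (q^2 * x) :: B) =
        fac x (A ++ 1 :: 1 :: 1 :: (B ++ [0])) * fac (q^2 * x)⁻¹ (B.map (fun x => x⁻¹) ++ [0]) * D A B
  polyA : ∀ (A B : List ℂ), Even A.length → Odd B.length → (∀ z ∈ A ++ B, z ≠ 0) → ∃ P : ℂ[X],
      P.natDegree ≤ 2 * A.length + 3 + B.length ∧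
        (∀ t, t ≠ 0 → P.eval t = t^A.length * D (t :: A) B) ∧ P.eval 0 = 0
  polyB : ∀ (A B : List ℂ), Odd A.length → Even B.length → (∀ z ∈ A ++ B, z ≠ 0) → ∃ P : ℂ[X],
      P.natDegree ≤ 2 * B.length + 3 + A.length ∧
        (∀ t, t ≠ 0 → P.eval t = t^B.length * D A (B ++ [t])) ∧ P.eval 0 = 0

/-- a parameter `0` in front: the arc of the first point ends at the last point -/
def S_Z0 : Prop := ∀ v : List ℂ, Even v.length → (∀ z ∈ v, z ≠ 0) →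
  ∀ R ∈ (Psi (0 :: (v ++ [0]))).support, R.rel 1 (v.length + 1)

def S_A1 : Prop := ∀ (u v B : List ℂ) (x y : ℂ), Odd (u.length + v.length) → Odd B.length → x ≠ 0 →
      y ≠ 0 → (∀ z ∈ u ++ v ++ B, z ≠ 0) → GR3 (u ++ y :: x :: v) B = GR3 (u ++ x :: y :: v) B
def S_A2 : Prop := ∀ (A u v : List ℂ) (x y : ℂ), Odd A.length → Odd (u.length + v.length) → x ≠ 0 →
      y ≠ 0 → (∀ z ∈ A ++ u ++ v, z ≠ 0) → GR3 A (u ++ y :: x :: v) = GR3 A (u ++ x :: y :: v)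
def S_A3 : Prop :=
  (∀ (A B : List ℂ) (x : ℂ), Even A.length → Odd B.length → x ≠ 0 → (∀ z ∈ A ++ B, z ≠ 0) →
      GR3 (x :: A) B = x^(B.length + 3) * GR3 (x⁻¹ :: A) B) ∧
  (∀ (A B : List ℂ) (x : ℂ), Odd A.length → Even B.length → x ≠ 0 → (∀ z ∈ A ++ B, z ≠ 0) →
      GR3 A (B ++ [x]) = x^(A.length + 3) * GR3 A (B ++ [x⁻¹]))
def S_A4 : Prop := ∀ (A B : List ℂ) (x : ℂ), Odd A.length → Odd B.length → x ≠ 0 →
      (∀ z ∈ A ++ B, z ≠ 0) → GR3 (x :: (q^2 * x) :: A) B =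
        fac x (A ++ 1 :: 1 :: 1 :: (B ++ [0])) * fac (q^2 * x)⁻¹ (A.map (fun x => x⁻¹) ++ [0]) *
          GR3 A B
def S_A5 : Prop := ∀ (A B : List ℂ) (x : ℂ), Odd A.length → Odd B.length → x ≠ 0 →
      (∀ z ∈ A ++ B, z ≠ 0) → GR3 A (x :: (q^2 * x) :: B) =
        fac x (A ++ 1 :: 1 :: 1 :: (B ++ [0])) * fac (q^2 * x)⁻¹ (B.map (fun x => x⁻¹) ++ [0]) *
          GR3 A B
def S_A6 : Prop := ∀ (A B : List ℂ), Even A.length → Odd B.length → (∀ z ∈ A ++ B, z ≠ 0) →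
  ∃ P : ℂ[X], P.natDegree ≤ 2 * A.length + 3 + B.length ∧
        (∀ t, t ≠ 0 → P.eval t = t^A.length * GR3 (t :: A) B) ∧ P.eval 0 = 0
def S_A7 : Prop := ∀ (A B : List ℂ), Odd A.length → Even B.length → (∀ z ∈ A ++ B, z ≠ 0) →
  ∃ P : ℂ[X], P.natDegree ≤ 2 * B.length + 3 + A.length ∧
        (∀ t, t ≠ 0 → P.eval t = t^B.length * GR3 A (B ++ [t])) ∧ P.eval 0 = 0
/-- case `(1,1)`, cup with the slit -/
def S_A8 : Prop := ∀ y : ℂ, y ≠ 0 → GR3 [q] [y] = RH3 [q] [y]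
/-- case `(1,1)`, cup across the slit -/
def S_A9 : Prop := ∀ x : ℂ, x ≠ 0 → GR3 [x] [q^2 * x] = RH3 [x] [q^2 * x]
/-- case `(3,3)` at a special point -/
def S_A10 : Prop := ∀ x y w : ℂ, x ≠ 0 → y ≠ 0 → w ≠ 0 →
  GR3 [x, y, q] [q^2, q^2 * y, w] = RH3 [x, y, q] [q^2, q^2 * y, w]

/-- symmetry, inversion of the closed formula -/
def S_R1 : Prop :=
  (∀ (u v B : List ℂ) (x y : ℂ), Odd (u.length + v.length) → Odd B.length → x ≠ 0 →
      y ≠ 0 → (∀ z ∈ u ++ v ++ B, z ≠ 0) → RH3 (u ++ y :: x :: v) B = RH3 (u ++ x :: y :: v) B) ∧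
  (∀ (A u v : List ℂ) (x y : ℂ), Odd A.length → Odd (u.length + v.length) → x ≠ 0 →
      y ≠ 0 → (∀ z ∈ A ++ u ++ v, z ≠ 0) → RH3 A (u ++ y :: x :: v) = RH3 A (u ++ x :: y :: v)) ∧
  (∀ (A B : List ℂ) (x : ℂ), Even A.length → Odd B.length → x ≠ 0 → (∀ z ∈ A ++ B, z ≠ 0) →
      RH3 (x :: A) B = x^(B.length + 3) * RH3 (x⁻¹ :: A) B) ∧
  (∀ (A B : List ℂ) (x : ℂ), Odd A.length → Even B.length → x ≠ 0 → (∀ z ∈ A ++ B, z ≠ 0) →
      RH3 A (B ++ [x]) = x^(A.length + 3) * RH3 A (B ++ [x⁻¹]))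
/-- recursions of the closed formula -/
def S_R2 : Prop :=
  (∀ (A B : List ℂ) (x : ℂ), Odd A.length → Odd B.length → x ≠ 0 → (∀ z ∈ A ++ B, z ≠ 0) →
      RH3 (x :: (q^2 * x) :: A) B =
        fac x (A ++ 1 :: 1 :: 1 :: (B ++ [0])) * fac (q^2 * x)⁻¹ (A.map (fun x => x⁻¹) ++ [0]) *
          RH3 A B) ∧
  (∀ (A B : List ℂ) (x : ℂ), Odd A.length → Odd B.length → x ≠ 0 → (∀ z ∈ A ++ B, z ≠ 0) →
      RH3 A (x :: (q^2 * x) :: B) =
        fac x (A ++ 1 :: 1 :: 1 :: (B ++ [0])) * fac (q^2 * x)⁻¹ (B.map (fun x => x⁻¹) ++ [0]) *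
          RH3 A B)
/-- the closed formula is polynomial -/
def S_R3 : Prop :=
  (∀ (A B : List ℂ), Even A.length → Odd B.length → (∀ z ∈ A ++ B, z ≠ 0) → ∃ P : ℂ[X],
      P.natDegree ≤ 2 * A.length + 3 + B.length ∧
        (∀ t, t ≠ 0 → P.eval t = t^A.length * RH3 (t :: A) B) ∧ P.eval 0 = 0) ∧
  (∀ (A B : List ℂ), Odd A.length → Even B.length → (∀ z ∈ A ++ B, z ≠ 0) → ∃ P : ℂ[X],
      P.natDegree ≤ 2 * B.length + 3 + A.length ∧
        (∀ t, t ≠ 0 → P.eval t = t^B.length * RH3 A (B ++ [t])) ∧ P.eval 0 = 0)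
/-- both functions are good, hence the difference is -/
def S_G : Prop := Good (fun A B => GR3 A B - RH3 A B)

/-- `D` vanishes on lists of nonzero numbers of lengths `m`, `n` -/
def Van (D : List ℂ → List ℂ → ℂ) (m n : ℕ) : Prop :=
  ∀ A B : List ℂ, A.length = m → B.length = n → (∀ z ∈ A ++ B, z ≠ 0) → D A B = 0

/-- the case `(1,1)` -/
def S_B11 : Prop := ∀ D : List ℂ → List ℂ → ℂ, Good D → (∀ y : ℂ, y ≠ 0 → D [q] [y] = 0) →
  (∀ x : ℂ, x ≠ 0 → D [x] [q^2 * x] = 0) → Van D 1 1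
/-- the case `(3,3)` -/
def S_B33 : Prop := ∀ D : List ℂ → List ℂ → ℂ, Good D → Van D 1 3 → Van D 3 1 →
  (∀ x y w : ℂ, x ≠ 0 → y ≠ 0 → w ≠ 0 → D [x, y, q] [q^2, q^2 * y, w] = 0) → Van D 3 3
/-- uniqueness -/
def S_U : Prop := ∀ D : List ℂ → List ℂ → ℂ, Good D → Van D 1 1 →
  (Van D 1 3 → Van D 3 1 → Van D 3 3) →
  ∀ A B : List ℂ, Odd A.length → Odd B.length → (∀ z ∈ A ++ B, z ≠ 0) → D A B = 0
/-- the inhomogeneous formula -/
def S_F : Prop := ∀ A B : List ℂ, Odd A.length → Odd B.length → (∀ z ∈ A ++ B, z ≠ 0) →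
  GR3 A B = RH3 A B

/-- the exact value -/
noncomputable def form3 (a b : ℕ) : ℝ :=
  9 * chi (a+1) * chi (b+1) * chi (a+b+2) / (chi a * chi b * chi (a+b+3))

/-- the homogeneous point -/
def S_H : Prop := ∀ a b : ℕ, Odd a → Odd b →
  GR3 (List.replicate a 1) (List.replicate b 1) =
    (form3 a b : ℂ) * (mass (psi1 (a+b+3)) * mass (psi1 a) * mass (psi1 b))

/-! ## Part C: percolation -/

/-- the relation on the faces of the lower strip generated by three states -/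
def J5 (a : ℕ) (R R1 R2 : St) (x y : ℕ) : Prop :=
  R.rel x y ∨ (R1.rel x y ∧ x ≤ a ∧ y ≤ a) ∨
    (a + 4 ≤ x ∧ a + 4 ≤ y ∧ R2.rel (x - (a+3)) (y - (a+3)))

/-- the left bank (face `a`) and the right wall (face `a+b+3`) are joined -/
def connB (a b : ℕ) (R R1 R2 : St) : Prop := EqvGen (J5 a R R1 R2) a (a+b+3)

/-- the tip (face `a+2`) and the right wall (face `a+b+3`) are joined -/
def connT (a b : ℕ) (R R1 R2 : St) : Prop := EqvGen (J5 a R R1 R2) (a+2) (a+b+3)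

open Classical in
/-- the trilinear pairing -/
noncomputable def pair5 (a b : ℕ) (f g h : St →₀ ℂ) : ℂ :=
  f.sum fun R α => g.sum fun R1 β => h.sum fun R2 γ =>
    α * β * γ * (if connT a b R R1 R2 ∧ ¬ connB a b R R1 R2 then 1 else 0)

/-- adjacency in the slit strip: the edges both ends of which lie in the columns `a, …, a+3` and
have `u + v ≥ 1` are removed -/
def Adj5 (a b : ℕ) (ω : Conf) (x y : ℤ × ℤ) : Prop :=
  OpenAdj ω x y ∧ (0 ≤ x.1 - x.2 ∧ x.1 - x.2 ≤ a + b + 3) ∧ (0 ≤ y.1 - y.2 ∧ y.1 - y.2 ≤ a + b + 3) ∧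
  ¬ ((a ≤ x.1 - x.2 ∧ x.1 - x.2 ≤ a + 3 ∧ 1 ≤ x.1 + x.2) ∧
     (a ≤ y.1 - y.2 ∧ y.1 - y.2 ≤ a + 3 ∧ 1 ≤ y.1 + y.2))

/-- the tip: the vertex of the column `a+2` with `u + v = 1` (`a` odd) -/
def tip5 (a : ℕ) : ℤ × ℤ := (((a + 3) / 2 : ℕ), -(((a + 1) / 2 : ℕ) : ℤ))

/-- the tip is joined to the right wall -/
def TipR (a b : ℕ) : Set Conf :=
  {ω | ∃ y : ℤ × ℤ, y.1 - y.2 = a + b + 3 ∧ Relation.ReflTransGen (Adj5 a b ω) (tip5 a) y}

/-- the left bank is joined to the right wall -/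
def BankR (a b : ℕ) : Set Conf :=
  {ω | ∃ x y : ℤ × ℤ, x.1 - x.2 = a ∧ 1 ≤ x.1 + x.2 ∧ y.1 - y.2 = a + b + 3 ∧
    Relation.ReflTransGen (Adj5 a b ω) x y}

/-- the event -/
def Legs (a b : ℕ) : Set Conf := TipR a b \ BankR a b

/-- the states of the window of height `M` -/
def WT (a b M : ℕ) : Set Conf :=
  {ω | connT a b (Pool.Agent.H988R2.Perc.X (a+b+3) (actBit (oPast ω M)) M)
    (Pool.Agent.H988R2.Perc.X a (actBit (oFut ω M)) M)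
    (Pool.Agent.H988R2.Perc.X b (actBit (oFutR (a+2) ω M)) M)}

def WB (a b M : ℕ) : Set Conf :=
  {ω | connB a b (Pool.Agent.H988R2.Perc.X (a+b+3) (actBit (oPast ω M)) M)
    (Pool.Agent.H988R2.Perc.X a (actBit (oFut ω M)) M)
    (Pool.Agent.H988R2.Perc.X b (actBit (oFutR (a+2) ω M)) M)}

/-- the whole window with the wired walls (left bank and right wall) -/
def FF5 (a b M : ℕ) (ω : Conf) (p p' : ℤ × ℤ) : Prop :=
  E0 a (b+2) M ω p p' ∨ E1 a M ω p p' ∨ E2 (a+2) b M ω p p'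

def S_C4 : Prop := ∀ (a b M : ℕ) (ω : Conf), Odd a → Odd b →
  (ω ∈ WT a b M → EqvGen (FF5 a b M ω) ((a : ℤ) + 2, 0) ((a : ℤ) + b + 3, 0)) ∧
  (ω ∈ WB a b M → EqvGen (FF5 a b M ω) ((a : ℤ), 0) ((a : ℤ) + b + 3, 0))
def S_C5 : Prop := ∀ (a b M : ℕ) (ω : Conf), Odd a → Odd b →
  (EqvGen (FF5 a b M ω) ((a : ℤ) + 2, 0) ((a : ℤ) + b + 3, 0) → ω ∈ WT a b M) ∧
  (EqvGen (FF5 a b M ω) ((a : ℤ), 0) ((a : ℤ) + b + 3, 0) → ω ∈ WB a b M)
def S_C6 : Prop := ∀ (a b M : ℕ) (ω : Conf), Odd a → Odd b →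
  (EqvGen (FF5 a b M ω) ((a : ℤ) + 2, 0) ((a : ℤ) + b + 3, 0) → ω ∈ TipR a b ∪ BankR a b) ∧
  (EqvGen (FF5 a b M ω) ((a : ℤ), 0) ((a : ℤ) + b + 3, 0) → ω ∈ BankR a b)
def S_C7 : Prop := ∀ (a b : ℕ) (ω : Conf), Odd a → Odd b →
  (ω ∈ TipR a b → ∃ M, EqvGen (FF5 a b M ω) ((a : ℤ) + 2, 0) ((a : ℤ) + b + 3, 0)) ∧
  (ω ∈ BankR a b → ∃ M, EqvGen (FF5 a b M ω) ((a : ℤ), 0) ((a : ℤ) + b + 3, 0))
/-- monotonicity in the height of the window -/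
def S_C7m : Prop := ∀ (a b M M' : ℕ) (ω : Conf) (p p' : ℤ × ℤ), M ≤ M' →
  EqvGen (FF5 a b M ω) p p' → EqvGen (FF5 a b M' ω) p p'

/-- a cell of the partition by the values of all the bits of the window -/
def cell5 (a b M : ℕ) (p0 p1 p2 : Finset (ℕ × ℕ)) : Set Conf :=
  {ω | T23.tP (a+b+3) M ω = p0 ∧ T23.tF a M ω = p1 ∧ tR (a+2) b M ω = p2}

def S_C8 : Prop := ∀ (a b M : ℕ) (p0 p1 p2 : Finset (ℕ × ℕ)), p0 ⊆ T23.SS (a+b+3) M → p1 ⊆ T23.SS a M →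
  p2 ⊆ T23.SS b M → MeasurableSet (cell5 a b M p0 p1 p2) ∧
  perc (cell5 a b M p0 p1 p2) = (1/2) ^ (2*M*(a+b+3) + 2*M*a + 2*M*b)

open Classical in
def S_C9 : Prop := ∀ (a b : ℕ) (α β γ : ℂ) (P0 P1 P2 : Finset (Finset (ℕ × ℕ)))
  (R0 R1 R2 : Finset (ℕ × ℕ) → St),
  pair5 a b (α • ∑ t ∈ P0, Finsupp.single (R0 t) (1:ℂ)) (β • ∑ t ∈ P1, Finsupp.single (R1 t) (1:ℂ))
    (γ • ∑ t ∈ P2, Finsupp.single (R2 t) (1:ℂ)) =
  α * β * γ * ∑ t0 ∈ P0, ∑ t1 ∈ P1, ∑ t2 ∈ P2,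
    (if connT a b (R0 t0) (R1 t1) (R2 t2) ∧ ¬ connB a b (R0 t0) (R1 t1) (R2 t2) then 1 else 0)

/-- the probability of the window event, measurability -/
def S_C10 : Prop := ∀ (a b M : ℕ), Odd a → Odd b →
  MeasurableSet (WT a b M) ∧ MeasurableSet (WB a b M) ∧
  ((perc.real (WT a b M \ WB a b M) : ℝ) : ℂ) = pair5 a b (law (a+b+3) M) (law a M) (law b M)

/-- trilinearity and bound -/
def S_C11 : Prop := (∀ (a b : ℕ) (f f' g h : St →₀ ℂ),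
    pair5 a b (f + f') g h = pair5 a b f g h + pair5 a b f' g h) ∧
  (∀ (a b : ℕ) (f g g' h : St →₀ ℂ),
    pair5 a b f (g + g') h = pair5 a b f g h + pair5 a b f g' h) ∧
  (∀ (a b : ℕ) (f g h h' : St →₀ ℂ),
    pair5 a b f g (h + h') = pair5 a b f g h + pair5 a b f g h') ∧
  (∀ (a b : ℕ) (c : ℂ) (f g h : St →₀ ℂ), pair5 a b (c • f) g h = c * pair5 a b f g h) ∧
  (∀ (a b : ℕ) (c : ℂ) (f g h : St →₀ ℂ), pair5 a b f (c • g) h = c * pair5 a b f g h) ∧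
  (∀ (a b : ℕ) (c : ℂ) (f g h : St →₀ ℂ), pair5 a b f g (c • h) = c * pair5 a b f g h) ∧
  (∀ (a b : ℕ) (f g h : St →₀ ℂ), ‖pair5 a b f g h‖ ≤ T24.nrm f * T24.nrm g * T24.nrm h)

/-- convergence of the pairing -/
def S_C13 : Prop := ∀ (a b : ℕ) (f0 f1 f2 : ℕ → St →₀ ℂ) (w0 w1 w2 : St →₀ ℂ),
  Tendsto (fun M => T24.nrm (f0 M + (-1 : ℂ) • w0)) atTop (𝓝 0) →
  Tendsto (fun M => T24.nrm (f1 M + (-1 : ℂ) • w1)) atTop (𝓝 0) →
  Tendsto (fun M => T24.nrm (f2 M + (-1 : ℂ) • w2)) atTop (𝓝 0) →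
  Tendsto (fun M => pair5 a b (f0 M) (f1 M) (f2 M)) atTop (𝓝 (pair5 a b w0 w1 w2))

/-- the output of part (C) -/
def S_C14 : Prop := ∀ (a b : ℕ), Odd a → Odd b →
  ((perc.real (Legs a b) : ℝ) : ℂ) =
    pair5 a b (psi1 (a+b+3)) (psi1 a) (psi1 b) /
      (mass (psi1 (a+b+3)) * mass (psi1 a) * mass (psi1 b))

/-- bridge between the two forms of the gluing -/
def S_C15 : Prop := ∀ (a b : ℕ), Odd a → Odd b →
  pair5 a b (psi1 (a+b+3)) (psi1 a) (psi1 b) = GR3 (List.replicate a 1) (List.replicate b 1)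

/-! ## Part D: asymptotics -/

/-- conformal covariance: `P ~ C (a b (a+b))^(-1/6)` with the explicit constant -/
def S_D : Prop := ∀ a b : ℕ → ℕ, (∀ n, Odd (a n)) → (∀ n, Odd (b n)) →
  Tendsto a atTop atTop → Tendsto b atTop atTop →
  Tendsto (fun n => form3 (a n) (b n) * ((a n : ℝ) * b n * (a n + b n))^((1:ℝ)/6)) atTop
    (𝓝 (2 * Real.sqrt Real.pi * Real.Gamma (5/3) / Real.Gamma (1/3) ^ 2))

/-! ## the theorems -/

def S_Exact : Prop := ∀ a b : ℕ, Odd a → Odd b → perc.real (Legs a b) = form3 a b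

theorem exact_of (hH : S_H) (h14 : S_C14) (h15 : S_C15)
    (hm : ∀ n : ℕ, Odd n → mass (psi1 n) ≠ 0) :
    S_Exact := by
  intro a b ha hb
  have h := h14 a b ha hb
  have hc : Odd (a + b + 3) := by
    obtain ⟨i, hi⟩ := ha; obtain ⟨j, hj⟩ := hb; exact ⟨i + j + 2, by omega⟩
  rw [h15 a b ha hb, hH a b ha hb, mul_div_assoc, div_self
    (mul_ne_zero (mul_ne_zero (hm _ hc) (hm _ ha)) (hm _ hb)), mul_one] at h
  exact_mod_cast h

end Pool.Agent.Y996.TL
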